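import Pool.Agent.H.MP_f8b95a_co.Main

namespace Pool.Agent.Results.MP_f8b95a_co.Characterization
open Pool.Agent.H.MP_f8b95a_co

theorem result {V : Type} [Fintype V] (M : Matroid V) (_hE : M.E = Set.univ)
    (h : IsTransversal M) :
    IsStrictMatching M ↔ Even M.eRank.toNat ∧
      M.eRank.toNat ≤ 2 * M.coloops.ncard + ∑ᶠ S ∈ seriesClasses M, 2 * ((S.ncard - 1) / 2) :=
  main h

end Pool.Agent.Results.MP_f8b95a_co.Characterization
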